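import Pool.Agent.X201.KW.Ab
import Pool.Agent.X201.KW.Sol

/-!
# Stallings' conjecture `B_n(p)` in wreath products `V ≀ Q` with abelian groups `V` and `Q`

Let `F` be a free group of finite rank and `S` a subgroup inducing an isomorphism on `H_1( ; Z/p)`,
and let `a` be a product of `F`-conjugates of `g_1, ..., g_n`, all in `S`.  Let `Θ : S → V ≀ Q` be any
homomorphism to a restricted wreath product of abelian groups.  If `Q` modulo the subgroup generated
by the second coordinates of `Θ(a), Θ(g_1), ..., Θ(g_n)` is residually a finite `p`-group, then `Θ(a)`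
is a product of conjugates of `Θ(g_1), ..., Θ(g_n)` in `V ≀ Q`.
-/

set_option autoImplicit false

open Monoid
open scoped TensorProduct
open Pool.Agent.X201.KW (Wr ResQ)

namespace Pool.Agent.Results.MP_e9d015_al.AbelianTopWreathProducts

theorem conj_prod {Q : Type} [Group Q] : ∀ (m : ℕ) (y : Q) (v : Fin m → Q),
    (List.ofFn fun i => y * v i * y⁻¹).prod = y * (List.ofFn v).prod * y⁻¹ := by
  intro m y
  induction m with
  | zero =>
    intro v
    simp
  | succ m ih =>
    intro v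
    rw [List.ofFn_succ, List.prod_cons, ih, List.ofFn_succ, List.prod_cons]
    group

/-- the system over `Γ` and the relation in its group -/
theorem system (n k p : ℕ) (hp : p.Prime) (S : Subgroup (FreeGroup (Fin k)))
    (hS : Function.Bijective (LinearMap.rTensor (ZMod p)
      (AddMonoidHom.toIntLinearMap (MonoidHom.toAdditive (Abelianization.map S.subtype)))))
    (a : S) (g : Fin n → S)
    (hdep : ∃ c : Fin n → FreeGroup (Fin k),
      (a : FreeGroup (Fin k)) =
        (List.ofFn (fun i => c i * (g i : FreeGroup (Fin k)) * (c i)⁻¹)).prod)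
    (Q : Type) [Group Q] (θ : S →* Q) :
    ∃ w : Fin k → Coprod Q (FreeGroup (Fin k)),
      IsCoprime (Matrix.of fun i j : Fin k =>
        Multiplicative.toAdd (Pool.Agent.TH63.KQ.eta Q k i (w j))).det (p : ℤ) ∧
      ∃ h : Fin (n + 1) → (Coprod Q (FreeGroup (Fin k)) ⧸ Subgroup.normalClosure (Set.range w)),
        (List.ofFn fun i => h i * QuotientGroup.mk' (Subgroup.normalClosure (Set.range w))
          (Coprod.inl ((Fin.cons (θ a)⁻¹ fun i => θ (g i) : Fin (n + 1) → Q) i)) *
            (h i)⁻¹).prod = 1 := by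
  obtain ⟨s, hs, hcop⟩ := Pool.Agent.TH63.KQ.exists_basis S hp hS
  let w : Fin k → Coprod Q (FreeGroup (Fin k)) := fun j =>
    (Coprod.inl (θ (s j)))⁻¹ * Coprod.inr (s j : FreeGroup (Fin k))
  have hw : ∀ i j, Multiplicative.toAdd (Pool.Agent.TH63.KQ.eta Q k i (w j)) =
      Multiplicative.toAdd (Pool.Agent.TH63.KQ.expo k i (s j : FreeGroup (Fin k))) := by
    intro i j
    have h1 : (Pool.Agent.TH63.KQ.eta Q k i).comp Coprod.inr = Pool.Agent.TH63.KQ.expo k i := by
      refine FreeGroup.ext_hom _ _ fun l => ?_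
      simp [Pool.Agent.TH63.KQ.eta, Pool.Agent.TH63.KQ.expo]
    have h2 : Pool.Agent.TH63.KQ.eta Q k i (Coprod.inl (θ (s j))) = 1 := by
      simp [Pool.Agent.TH63.KQ.eta]
    show Multiplicative.toAdd (Pool.Agent.TH63.KQ.eta Q k i ((Coprod.inl (θ (s j)))⁻¹ *
      Coprod.inr (s j : FreeGroup (Fin k)))) = _
    rw [map_mul, map_inv, h2, inv_one, one_mul, ← h1]
    rfl
  have hdet : IsCoprime (Matrix.of fun i j : Fin k =>
      Multiplicative.toAdd (Pool.Agent.TH63.KQ.eta Q k i (w j))).det (p : ℤ) := by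
    have h1 : (Matrix.of fun i j : Fin k =>
        Multiplicative.toAdd (Pool.Agent.TH63.KQ.eta Q k i (w j))) = Matrix.of fun i j : Fin k =>
        Multiplicative.toAdd (Pool.Agent.TH63.KQ.expo k i (s j : FreeGroup (Fin k))) := by
      ext i j
      exact hw i j
    rw [h1]
    exact hcop
  let mk := QuotientGroup.mk' (Subgroup.normalClosure (Set.range w))
  have hmk : (mk.comp Coprod.inl).comp θ = (mk.comp Coprod.inr).comp S.subtype := by
    apply hs
    intro j
    show mk (Coprod.inl (θ (s j))) = mk (Coprod.inr (s j : FreeGroup (Fin k)))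
    refine QuotientGroup.eq.2 ?_
    exact Subgroup.subset_normalClosure ⟨j, rfl⟩
  have hmk' : ∀ x : S, mk (Coprod.inl (θ x)) = mk (Coprod.inr (x : FreeGroup (Fin k))) :=
    fun x => DFunLike.congr_fun hmk x
  obtain ⟨c, hc⟩ := hdep
  refine ⟨w, hdet, Fin.cons 1 fun i => mk (Coprod.inr (c i)), ?_⟩
  rw [List.ofFn_succ, List.prod_cons]
  simp only [Fin.cons_zero, Fin.cons_succ]
  have h1 : (List.ofFn fun i : Fin n => mk (Coprod.inr (c i)) * mk (Coprod.inl (θ (g i))) *
      (mk (Coprod.inr (c i)))⁻¹).prod = mk (Coprod.inl (θ a)) := by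
    rw [hmk' a, hc, map_list_prod, map_list_prod, List.map_ofFn, List.map_ofFn]
    congr 2
    funext i
    simp [hmk']
  show 1 * mk (Coprod.inl (θ a)⁻¹) * 1⁻¹ * (List.ofFn fun i : Fin n => mk (Coprod.inr (c i)) *
    mk (Coprod.inl (θ (g i))) * (mk (Coprod.inr (c i)))⁻¹).prod = 1
  rw [h1]
  simp

/-- from the tuple `a⁻¹, g_1, ..., g_n` to a product of conjugates of the `g_i` -/
theorem unpack {Q : Type} [Group Q] (n : ℕ) (a : Q) (g : Fin n → Q) (x : Fin (n + 1) → Q) :
    (List.ofFn fun i => x i * (Fin.cons a⁻¹ g : Fin (n + 1) → Q) i * (x i)⁻¹).prod =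
      x 0 * (a⁻¹ * (List.ofFn fun i => (x 0)⁻¹ * x i.succ * g i * ((x 0)⁻¹ * x i.succ)⁻¹).prod) *
        (x 0)⁻¹ := by
  rw [List.ofFn_succ, List.prod_cons]
  simp only [Fin.cons_zero, Fin.cons_succ]
  have h4 : (fun i : Fin n => (x 0)⁻¹ * x i.succ * g i * ((x 0)⁻¹ * x i.succ)⁻¹) =
      fun i => (x 0)⁻¹ * (x i.succ * g i * (x i.succ)⁻¹) * ((x 0)⁻¹)⁻¹ := by
    funext i
    group
  rw [h4, conj_prod]
  group

theorem closure_cons {Q : Type} [Group Q] (n : ℕ) (a : Q) (g : Fin n → Q) :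
    Subgroup.closure (Set.range (Fin.cons a⁻¹ g : Fin (n + 1) → Q)) =
      Subgroup.closure ({a} ∪ Set.range g) := by
  refine le_antisymm ((Subgroup.closure_le _).2 ?_) ((Subgroup.closure_le _).2 ?_)
  · rintro _ ⟨i, rfl⟩
    refine Fin.cases ?_ (fun i => ?_) i
    · exact Subgroup.inv_mem _ (Subgroup.subset_closure (Or.inl rfl))
    · exact Subgroup.subset_closure (Or.inr ⟨i, rfl⟩)
  · rintro b (hb | ⟨i, rfl⟩)
    · have h : a⁻¹ ∈ Subgroup.closure (Set.range (Fin.cons a⁻¹ g : Fin (n + 1) → Q)) :=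
        Subgroup.subset_closure ⟨0, rfl⟩
      have hb' : b = a := hb
      rw [hb']
      exact (Subgroup.inv_mem_iff _).1 h
    · exact Subgroup.subset_closure ⟨i.succ, rfl⟩

/-- Let `S` be a subgroup of the free group `F` of rank `k` such that `H_1(S; Z/p) → H_1(F; Z/p)` is
an isomorphism, and `a, g_1, ..., g_n` in `S` such that `a` is a product of `F`-conjugates of
`g_1, ..., g_n`.  Let `V`, `Q` be abelian groups and `Θ` a homomorphism from `S` to the restricted
wreath product `V ≀ Q` such that the quotient of `Q` by the subgroup generated by the second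
coordinates of `Θ(a), Θ(g_1), ..., Θ(g_n)` is residually a finite `p`-group.  Then `Θ(a)` is a product
of `V ≀ Q`-conjugates of `Θ(g_1), ..., Θ(g_n)`. -/
theorem result (n k p : ℕ) (hp : p.Prime) (S : Subgroup (FreeGroup (Fin k)))
    (hS : Function.Bijective (LinearMap.rTensor (ZMod p)
      (AddMonoidHom.toIntLinearMap (MonoidHom.toAdditive (Abelianization.map S.subtype)))))
    (a : S) (g : Fin n → S)
    (hdep : ∃ c : Fin n → FreeGroup (Fin k),
      (a : FreeGroup (Fin k)) =
        (List.ofFn (fun i => c i * (g i : FreeGroup (Fin k)) * (c i)⁻¹)).prod)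
    (V Q : Type) [AddCommGroup V] [CommGroup Q] (Θ : S →* Wr V Q)
    (hQ : ResQ p (Q ⧸ Subgroup.closure ({(Θ a).a} ∪ Set.range fun i => (Θ (g i)).a))) :
    ∃ c : Fin n → Wr V Q, Θ a = (List.ofFn (fun i => c i * Θ (g i) * (c i)⁻¹)).prod := by
  obtain ⟨w, hcop, hg⟩ := system n k p hp S hS a g hdep (Wr V Q) Θ
  have e : (fun i => ((Fin.cons (Θ a)⁻¹ fun i => Θ (g i) : Fin (n + 1) → Wr V Q) i).a) =
      (Fin.cons ((Θ a).a)⁻¹ fun i => (Θ (g i)).a : Fin (n + 1) → Q) := by
    funext i
    refine Fin.cases ?_ (fun i => ?_) i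
    · rfl
    · rfl
  have hL : Subgroup.closure (Set.range fun i =>
      ((Fin.cons (Θ a)⁻¹ fun i => Θ (g i) : Fin (n + 1) → Wr V Q) i).a) =
      Subgroup.closure ({(Θ a).a} ∪ Set.range fun i => (Θ (g i)).a) := by
    rw [e, closure_cons]
  have hQ' : ResQ p (Q ⧸ Subgroup.closure (Set.range fun i =>
      ((Fin.cons (Θ a)⁻¹ fun i => Θ (g i) : Fin (n + 1) → Wr V Q) i).a)) := by
    rw [hL]
    exact hQ
  obtain ⟨x, hx⟩ := Pool.Agent.X201.KW.key2 hp k w hcop (n + 1) _ hQ' hg
  rw [unpack] at hx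
  refine ⟨fun i => (x 0)⁻¹ * x i.succ, ?_⟩
  rw [mul_inv_eq_one] at hx
  have h2 := mul_eq_left.1 hx
  exact inv_mul_eq_one.1 h2

end Pool.Agent.Results.MP_e9d015_al.AbelianTopWreathProducts
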