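import Pool.Agent.X201.KW.AspFS

/-!
# Stallings' conjecture B: descent of dependence modulo `[N,N]`

Let `S` be a subgroup of the free group `F = F(t_0, ..., t_(k-1))` with a basis `s_0, ..., s_(k-1)`,
that is, let `S` be the image of an injective homomorphism `F' → F`, `x_j ↦ s_j`.  Let `N` be a normal
subgroup of `S`.  Suppose that `S/N` embeds in `F/<<N>>` and that the rows of the Fox Jacobian
`∂s_j/∂t_i` are linearly independent over the group ring of `F/<<N>>`.  If an element `a` of `N` is a
product of `F`-conjugates of elements `g_1, ..., g_n` of `N`, then it is a product of `S`-conjugates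
of `g_1, ..., g_n` modulo `[N,N]`.  Nothing is assumed on the finite quotients of `S/N`.

The assumptions hold for all `N` in the kernel of a homomorphism `χ` from `F` to a left ordered
group, if the words `s_j` pass a triangular test with respect to `χ`.  An example is the subgroup
`S = ⟨x, t x⁻¹ t⁻²⟩` of `F(x,t)` with `χ(x) = χ(t) = 1` in `ℤ`; it induces an isomorphism on `H_1`.
-/

set_option autoImplicit false

open Monoid
open Pool.Agent.X201.KW (Wr Asph toPP)
open Pool.Agent.X237.FS (Letter val Grp FreeSides sides pr lval gen)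

namespace Pool.Agent.Results.MP_e9d015_al.DescentModuloCommutators

theorem conj_prod {Q : Type} [Group Q] : ∀ (m : ℕ) (y : Q) (v : Fin m → Q),
    (List.ofFn fun i => y * v i * y⁻¹).prod = y * (List.ofFn v).prod * y⁻¹ := by
  intro m y
  induction m with
  | zero =>
    intro v
    simp
  | succ m ih =>
    intro v
    rw [List.ofFn_succ, List.prod_cons, ih, List.ofFn_succ, List.prod_cons]
    group

/-- the relators `x_j⁻¹ s_j` over `F'/N`, where `s_j` is a word in the generators of `F` -/
def relator {k : ℕ} (s : Fin k → List (Fin k × Bool)) (N : Subgroup (FreeGroup (Fin k)))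
    [N.Normal] (j : Fin k) : List (Letter (FreeGroup (Fin k) ⧸ N) (Fin k)) :=
  Sum.inl (QuotientGroup.mk (FreeGroup.of j))⁻¹ :: (s j).map Sum.inr

/-- the homomorphism `F' → F`, `x_j ↦ s_j` -/
def hom {k : ℕ} (s : Fin k → List (Fin k × Bool)) : FreeGroup (Fin k) →* FreeGroup (Fin k) :=
  FreeGroup.lift fun j => FreeGroup.mk (s j)

theorem val_word {Q : Type} [Group Q] {k : ℕ} (l : List (Fin k × Bool)) :
    val (l.map Sum.inr : List (Letter Q (Fin k))) = Coprod.inr (FreeGroup.mk l) := by
  induction l with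
  | nil => exact (map_one (Coprod.inr : FreeGroup (Fin k) →* Coprod Q (FreeGroup (Fin k)))).symm
  | cons p l ih =>
    rw [List.map_cons, Pool.Agent.X237.FS.val_cons, ih]
    have e : (FreeGroup.mk (p :: l) : FreeGroup (Fin k)) = FreeGroup.mk [p] * FreeGroup.mk l := by
      rw [FreeGroup.mul_mk]; rfl
    rw [e, map_mul]
    congr 1
    obtain ⟨i, b⟩ := p
    cases b with
    | true => rfl
    | false =>
      show (Coprod.inr (FreeGroup.of i))⁻¹ = _
      rw [← map_inv]
      rfl

theorem descend {k : ℕ} (s : Fin k → List (Fin k × Bool)) (N : Subgroup (FreeGroup (Fin k)))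
    [N.Normal] (hinj : Function.Injective (toPP fun j => val (relator s N j)))
    (hasp : Asph fun j => val (relator s N j)) (n : ℕ) (a : FreeGroup (Fin k))
    (g : Fin n → FreeGroup (Fin k)) (ha : a ∈ N) (hg : ∀ i, g i ∈ N)
    (hdep : ∃ c : Fin n → FreeGroup (Fin k),
      hom s a = (List.ofFn (fun i => c i * hom s (g i) * (c i)⁻¹)).prod) :
    ∃ c : Fin n → FreeGroup (Fin k),
      a⁻¹ * (List.ofFn (fun i => c i * g i * (c i)⁻¹)).prod ∈ ⁅N, N⁆ := by
  obtain ⟨Θ, h1, h2⟩ := Pool.Agent.X201.KW.magnus (FreeGroup (Fin k)) N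
  let w : Fin k → Coprod (FreeGroup (Fin k)) (FreeGroup (Fin k)) := fun j =>
    (Coprod.inl (FreeGroup.of j))⁻¹ * Coprod.inr (FreeGroup.mk (s j))
  have hdown : Pool.Agent.X201.KW.down ((Wr.map (MonoidHom.id (FreeGroup (Fin k) ⧸ N))).comp Θ) w =
      fun j => val (relator s N j) := by
    funext j
    show Coprod.map _ _ ((Coprod.inl (FreeGroup.of j))⁻¹ * Coprod.inr (FreeGroup.mk (s j))) =
      val (Sum.inl (QuotientGroup.mk (FreeGroup.of j))⁻¹ :: (s j).map Sum.inr)
    rw [Pool.Agent.X237.FS.val_cons, val_word, map_mul, map_inv, Coprod.map_apply_inl,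
      Coprod.map_apply_inr]
    congr 1
    show (Coprod.inl (Θ (FreeGroup.of j)).a)⁻¹ =
      Coprod.inl (QuotientGroup.mk (FreeGroup.of j))⁻¹
    rw [h1, map_inv]
  let mk := QuotientGroup.mk' (Subgroup.normalClosure (Set.range w))
  have hmk : mk.comp Coprod.inl = (mk.comp Coprod.inr).comp (hom s) := by
    refine FreeGroup.ext_hom _ _ fun j => ?_
    show mk (Coprod.inl (FreeGroup.of j)) = mk (Coprod.inr (hom s (FreeGroup.of j)))
    rw [hom, FreeGroup.lift_apply_of]
    refine QuotientGroup.eq.2 ?_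
    exact Subgroup.subset_normalClosure ⟨j, rfl⟩
  have hmk' : ∀ x, mk (Coprod.inl x) = mk (Coprod.inr (hom s x)) :=
    fun x => DFunLike.congr_fun hmk x
  obtain ⟨c, hc⟩ := hdep
  have hmain := Pool.Agent.X201.KW.key3 Θ (fun x => by
      obtain ⟨y, rfl⟩ := QuotientGroup.mk_surjective x
      exact ⟨y, h1 y⟩) k w
    (fun B => ⟨_, inferInstance, MonoidHom.id _, fun b _ hb => hb, by rw [hdown]; exact hinj,
      by rw [hdown]; exact hasp⟩) (n + 1) (Fin.cons a⁻¹ g) (fun i => by
      refine Fin.cases ?_ (fun i => ?_) i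
      · show (Θ a⁻¹).a = 1
        rw [h1]
        exact (QuotientGroup.eq_one_iff _).2 (N.inv_mem ha)
      · show (Θ (g i)).a = 1
        rw [h1]
        exact (QuotientGroup.eq_one_iff _).2 (hg i)) ⟨Fin.cons 1 fun i => mk (Coprod.inr (c i)), ?_⟩
  · obtain ⟨x, hx⟩ := hmain
    refine ⟨fun i => (x 0)⁻¹ * x i.succ, h2 _ ?_⟩
    rw [List.ofFn_succ, List.prod_cons] at hx
    simp only [Fin.cons_zero, Fin.cons_succ] at hx
    have h4 : (fun i : Fin n => (x 0)⁻¹ * x i.succ * g i * ((x 0)⁻¹ * x i.succ)⁻¹) =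
        fun i => (x 0)⁻¹ * (x i.succ * g i * (x i.succ)⁻¹) * ((x 0)⁻¹)⁻¹ := by
      funext i
      group
    rw [h4, conj_prod]
    have e : a⁻¹ * ((x 0)⁻¹ * (List.ofFn fun i => x i.succ * g i * (x i.succ)⁻¹).prod *
        ((x 0)⁻¹)⁻¹) = (x 0)⁻¹ * (x 0 * a⁻¹ * (x 0)⁻¹ *
        (List.ofFn fun i => x i.succ * g i * (x i.succ)⁻¹).prod) * x 0 := by group
    rw [e, map_mul, map_mul, hx, mul_one, ← map_mul, inv_mul_cancel, map_one]
  · rw [List.ofFn_succ, List.prod_cons]
    simp only [Fin.cons_zero, Fin.cons_succ]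
    have h3 : (List.ofFn fun i : Fin n => mk (Coprod.inr (c i)) * mk (Coprod.inl (g i)) *
        (mk (Coprod.inr (c i)))⁻¹).prod = mk (Coprod.inl a) := by
      rw [hmk' a, hc, map_list_prod, map_list_prod, List.map_ofFn, List.map_ofFn]
      congr 2
      funext i
      simp [hmk']
    show 1 * mk (Coprod.inl a⁻¹) * 1⁻¹ * (List.ofFn fun i : Fin n => mk (Coprod.inr (c i)) *
      mk (Coprod.inl (g i)) * (mk (Coprod.inr (c i)))⁻¹).prod = 1
    rw [h3]
    simp

section test

variable {A : Type} [Group A] {k : ℕ}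

/-- the sides of the lift, starting at `a`, of a word to the covering of the rose belonging to `χ`:
`(x, b)` is the edge with the label `x` which starts at `b` -/
def wsides (χ : FreeGroup (Fin k) →* A) : A → List (Fin k × Bool) → List (Fin k × A)
  | _, [] => []
  | a, (x, true) :: l => (x, a) :: wsides χ (a * χ (FreeGroup.of x)) l
  | a, (x, false) :: l => (x, a * (χ (FreeGroup.of x))⁻¹) ::
      wsides χ (a * (χ (FreeGroup.of x))⁻¹) l

theorem wsides_smul (χ : FreeGroup (Fin k) →* A) (c : A) (l : List (Fin k × Bool)) : ∀ a : A,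
    wsides χ (c * a) l = (wsides χ a l).map fun p => (p.1, c * p.2) := by
  induction l with
  | nil => intro a; rfl
  | cons p l ih =>
    intro a
    rcases p with ⟨x, _ | _⟩
    · simp only [wsides, List.map_cons]
      rw [mul_assoc, ih]
    · simp only [wsides, List.map_cons]
      rw [mul_assoc, ih]

theorem wsides_eq (χ : FreeGroup (Fin k) →* A) (c : A) (l : List (Fin k × Bool)) :
    wsides χ c l = (wsides χ 1 l).map fun p => (p.1, c * p.2) := by
  have h := wsides_smul χ c l 1
  rwa [mul_one] at h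

theorem wsides_fst (χ : FreeGroup (Fin k) →* A) (l : List (Fin k × Bool)) : ∀ (a : A)
    (p : Fin k × A), p ∈ wsides χ a l → p.1 ∈ l.map Prod.fst := by
  induction l with
  | nil => intro a p hp; cases hp
  | cons q l ih =>
    intro a p hp
    rcases q with ⟨x, _ | _⟩
    · rcases List.mem_cons.1 hp with rfl | hp
      · exact List.mem_cons_self
      · exact List.mem_cons_of_mem _ (ih _ p hp)
    · rcases List.mem_cons.1 hp with rfl | hp
      · exact List.mem_cons_self
      · exact List.mem_cons_of_mem _ (ih _ p hp)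

variable (s : Fin k → List (Fin k × Bool)) (N : Subgroup (FreeGroup (Fin k))) [N.Normal]

theorem exists_rho (χ : FreeGroup (Fin k) →* A) (hN : N ≤ (χ.comp (hom s)).ker) :
    ∃ ρ : Grp (relator s N) →* A, (∀ x, ρ (pr (relator s N) (Coprod.inr x)) = χ x) ∧
      ∀ y, ρ (pr (relator s N) (Coprod.inl (QuotientGroup.mk y))) = χ (hom s y) := by
  let σ : Coprod (FreeGroup (Fin k) ⧸ N) (FreeGroup (Fin k)) →* A :=
    Coprod.lift (QuotientGroup.lift N (χ.comp (hom s)) hN) χ
  have hle : Subgroup.normalClosure (Set.range fun e => val (relator s N e)) ≤ σ.ker := by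
    refine Subgroup.normalClosure_le_normal ?_
    rintro _ ⟨j, rfl⟩
    show σ (val (relator s N j)) = 1
    have e : val (relator s N j) = Coprod.inl (QuotientGroup.mk (FreeGroup.of j))⁻¹ *
        Coprod.inr (FreeGroup.mk (s j)) := by
      rw [relator, Pool.Agent.X237.FS.val_cons, val_word]
      rfl
    rw [e, map_mul]
    show (Coprod.lift (QuotientGroup.lift N (χ.comp (hom s)) hN) χ)
      (Coprod.inl (QuotientGroup.mk (FreeGroup.of j))⁻¹) *
      (Coprod.lift (QuotientGroup.lift N (χ.comp (hom s)) hN) χ)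
      (Coprod.inr (FreeGroup.mk (s j))) = 1
    rw [Coprod.lift_apply_inl, Coprod.lift_apply_inr, map_inv, QuotientGroup.lift_mk]
    show (χ (hom s (FreeGroup.of j)))⁻¹ * χ (FreeGroup.mk (s j)) = 1
    rw [hom, FreeGroup.lift_apply_of, inv_mul_cancel]
  refine ⟨QuotientGroup.lift _ σ hle, fun x => ?_, fun y => ?_⟩
  · show σ (Coprod.inr x) = χ x
    exact Coprod.lift_apply_inr _ _ x
  · show σ (Coprod.inl (QuotientGroup.mk y)) = χ (hom s y)
    exact (Coprod.lift_apply_inl _ _ _).trans rfl

theorem sides_word {χ : FreeGroup (Fin k) →* A} (ρ : Grp (relator s N) →* A)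
    (h1 : ∀ x, ρ (pr (relator s N) (Coprod.inr x)) = χ x) (l : List (Fin k × Bool)) : ∀ a : A,
    sides (ρ.comp (pr (relator s N))) a (l.map Sum.inr) = wsides χ a l := by
  have hgen : ∀ x, (ρ.comp (pr (relator s N))) (gen _ x) = χ (FreeGroup.of x) := fun x => h1 _
  induction l with
  | nil => intro a; rfl
  | cons p l ih =>
    intro a
    rcases p with ⟨x, _ | _⟩
    · simp only [List.map_cons, sides, wsides]
      rw [hgen, ih]
    · simp only [List.map_cons, sides, wsides]
      rw [hgen, ih]

theorem sides_relator {χ : FreeGroup (Fin k) →* A} (ρ : Grp (relator s N) →* A)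
    (h1 : ∀ x, ρ (pr (relator s N) (Coprod.inr x)) = χ x)
    (h2 : ∀ y, ρ (pr (relator s N) (Coprod.inl (QuotientGroup.mk y))) = χ (hom s y))
    (j : Fin k) (a : A) : sides (ρ.comp (pr (relator s N))) a (relator s N j) =
      wsides χ (a * (χ (FreeGroup.mk (s j)))⁻¹) (s j) := by
  have e : (ρ.comp (pr (relator s N))) (Coprod.inl (QuotientGroup.mk (FreeGroup.of j))⁻¹) =
      (χ (FreeGroup.mk (s j)))⁻¹ := by
    have h3 := h2 (FreeGroup.of j)⁻¹
    have h4 : hom s (FreeGroup.of j) = FreeGroup.mk (s j) := by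
      rw [hom, FreeGroup.lift_apply_of]
    rw [map_inv, map_inv, h4] at h3
    exact h3
  show sides _ a (Sum.inl (QuotientGroup.mk (FreeGroup.of j))⁻¹ :: (s j).map Sum.inr) = _
  simp only [sides]
  rw [e, sides_word s N ρ h1]

/-- the triangular test: a left invariant order of `A`, and for every `j` a generator `t_(τ j)` which
does not occur in `s_i` for `i < j`, such that one of the sides of `s_j` with the label `t_(τ j)` lies
strictly below the other ones -/
def Triangular [LinearOrder A] (χ : FreeGroup (Fin k) →* A) : Prop :=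
  (∀ a b c : A, b ≤ c → a * b ≤ a * c) ∧ ∃ τ : Fin k → Fin k,
    (∀ i j, i < j → τ j ∉ (s i).map Prod.fst) ∧
    ∀ j, ∃ (l₁ l₂ : List (Fin k × A)) (m : A), wsides χ 1 (s j) = l₁ ++ (τ j, m) :: l₂ ∧
      (∀ p ∈ l₁, p.1 = τ j → m < p.2) ∧ ∀ p ∈ l₂, p.1 = τ j → m < p.2

theorem freeSides_of_triangular [LinearOrder A] (χ : FreeGroup (Fin k) →* A)
    (h : Triangular s χ) (ρ : Grp (relator s N) →* A)
    (h1 : ∀ x, ρ (pr (relator s N) (Coprod.inr x)) = χ x)
    (h2 : ∀ y, ρ (pr (relator s N) (Coprod.inl (QuotientGroup.mk y))) = χ (hom s y)) :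
    FreeSides (relator s N) ρ := by
  classical
  obtain ⟨hA, τ, hτ, hs⟩ := h
  choose l₁ l₂ m hl hl1 hl2 using hs
  intro S hS
  obtain ⟨d₀, hd₀, hmax⟩ := Finset.exists_max_image S (fun d => d.1) hS
  let T := S.filter fun d => d.1 = d₀.1
  obtain ⟨d, hd, hmin⟩ := Finset.exists_min_image T
    (fun d => d.2 * (χ (FreeGroup.mk (s d₀.1)))⁻¹ * m d₀.1)
    ⟨d₀, Finset.mem_filter.2 ⟨hd₀, rfl⟩⟩
  obtain ⟨hdS, hd1⟩ := Finset.mem_filter.1 hd
  obtain ⟨j, a⟩ := d
  have hj : d₀.1 = j := hd1.symm
  rw [hj] at hmin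
  set c : A := a * (χ (FreeGroup.mk (s j)))⁻¹ with hc
  refine ⟨(j, a), hdS, (τ j, c * m j), ⟨(l₁ j).map (fun p => (p.1, c * p.2)),
    (l₂ j).map (fun p => (p.1, c * p.2)), ?_, ?_, ?_⟩, ?_⟩
  · show sides (ρ.comp (pr (relator s N))) a (relator s N j) = _
    rw [sides_relator s N ρ h1 h2, wsides_eq, hl, List.map_append, List.map_cons]
  · intro h3
    obtain ⟨p, hp, h4⟩ := List.mem_map.1 h3
    rw [Prod.ext_iff] at h4
    exact (hl1 j p hp h4.1).ne' (mul_left_cancel h4.2)
  · intro h3
    obtain ⟨p, hp, h4⟩ := List.mem_map.1 h3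
    rw [Prod.ext_iff] at h4
    exact (hl2 j p hp h4.1).ne' (mul_left_cancel h4.2)
  · rintro ⟨i, b⟩ hi hne h3
    have h3' : (τ j, c * m j) ∈ sides (ρ.comp (pr (relator s N))) b (relator s N i) := h3
    rw [sides_relator s N ρ h1 h2] at h3'
    have hij : i ≤ j := by
      rw [← hj]
      exact hmax (i, b) hi
    rcases hij.lt_or_eq with hlt | rfl
    · exact hτ i j hlt (wsides_fst χ (s i) _ _ h3')
    · rw [wsides_eq] at h3'
      obtain ⟨p, hp, h4⟩ := List.mem_map.1 h3'
      rw [Prod.ext_iff] at h4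
      obtain ⟨h5, h6⟩ := h4
      have h5' : p.1 = τ i := h5
      have h6' : b * (χ (FreeGroup.mk (s i)))⁻¹ * p.2 = c * m i := h6
      have h7 : m i ≤ p.2 := by
        rw [hl] at hp
        rcases List.mem_append.1 hp with hp | hp
        · exact (hl1 i p hp h5').le
        · rcases List.mem_cons.1 hp with rfl | hp
          · exact le_refl _
          · exact (hl2 i p hp h5').le
      have h8 : c * m i ≤ b * (χ (FreeGroup.mk (s i)))⁻¹ * m i :=
        hmin (i, b) (Finset.mem_filter.2 ⟨hi, hj.symm⟩)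
      have h9 := (hA (b * (χ (FreeGroup.mk (s i)))⁻¹) _ _ h7).trans h6'.le
      have h10 : b * (χ (FreeGroup.mk (s i)))⁻¹ * m i = c * m i := le_antisymm h9 h8
      have h11 : b = a := mul_right_cancel (mul_right_cancel h10)
      exact hne (by rw [h11])

end test

/-- `a` is a product of `F`-conjugates of `g_1, ..., g_n` (after `x_j ↦ s_j`) implies that `a` is a
product of conjugates of `g_1, ..., g_n` modulo `[N,N]`, for all `a, g_1, ..., g_n` in `N` -/
def Descends {k : ℕ} (s : Fin k → List (Fin k × Bool)) (N : Subgroup (FreeGroup (Fin k))) : Prop :=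
  ∀ (n : ℕ) (a : FreeGroup (Fin k)) (g : Fin n → FreeGroup (Fin k)), a ∈ N → (∀ i, g i ∈ N) →
    (∃ c : Fin n → FreeGroup (Fin k),
      hom s a = (List.ofFn (fun i => c i * hom s (g i) * (c i)⁻¹)).prod) →
    ∃ c : Fin n → FreeGroup (Fin k),
      a⁻¹ * (List.ofFn (fun i => c i * g i * (c i)⁻¹)).prod ∈ ⁅N, N⁆

/-- the words `x` and `t x⁻¹ t⁻²` in `x = t_0`, `t = t_1` -/
def stall : Fin 2 → List (Fin 2 × Bool) :=
  ![[(0, true)], [(1, true), (0, false), (1, false), (1, false)]]

/-- the homomorphism to `ℤ` which maps both generators to `1` -/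
def height : FreeGroup (Fin 2) →* Multiplicative ℤ :=
  FreeGroup.lift fun _ => Multiplicative.ofAdd 1

theorem triangular_stall : Triangular stall height := by
  refine ⟨fun a b c h => mul_le_mul_right h a, id, ?_, ?_⟩
  · intro i j hij
    fin_cases i <;> fin_cases j <;> simp_all [stall]
  · intro j
    fin_cases j
    · refine ⟨[], [], 1, ?_, by simp, by simp⟩
      simp [stall, wsides]
    · refine ⟨[(1, Multiplicative.ofAdd 0), (0, Multiplicative.ofAdd 0),
        (1, Multiplicative.ofAdd (-1))], [], Multiplicative.ofAdd (-2), ?_, ?_, by simp⟩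
      · show wsides height 1 [(1, true), (0, false), (1, false), (1, false)] = _
        have h : ∀ x : Fin 2, height (FreeGroup.of x) = Multiplicative.ofAdd 1 := fun x => by
          rw [height, FreeGroup.lift_apply_of]
        simp only [wsides, h]
        rfl
      · intro p hp hp1
        simp only [List.mem_cons, List.not_mem_nil, or_false] at hp
        rcases hp with rfl | rfl | rfl
        · decide
        · exact absurd hp1 (by decide)
        · decide

/-- Let `x_j ↦ s_j` (`j < k`) be a homomorphism `F' → F` of free groups of rank `k` (if it is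
injective, `F'` is the subgroup `S` of `F` with the basis `s_j`), and `N` a normal subgroup of `F'`.

(1) Let `P` be the quotient of `(F'/N) * F` by the relators `x_j⁻¹ s_j`.  If `F'/N → P` is injective
and the rows of the matrix of Fox derivatives `∂(x_j⁻¹ s_j)/∂t_i` are linearly independent over `ℤP`,
then dependence in `F` of elements of `N` implies their dependence in `F'` modulo `[N,N]`.
(2) This holds if `N` lies in the kernel of the composition of `F' → F` and a homomorphism `χ` from
`F` to a left ordered group for which the words `s_j` pass the triangular test.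
(3) In particular it holds for the subgroup `⟨x, t x⁻¹ t⁻²⟩` of `F(x,t)` and all its normal subgroups
`N` in the kernel of `x ↦ 1`, `t ↦ 1`. -/
theorem result :
    (∀ (k : ℕ) (s : Fin k → List (Fin k × Bool)) (N : Subgroup (FreeGroup (Fin k))) [N.Normal],
      Function.Injective (toPP fun j => val (relator s N j)) →
      (Asph fun j => val (relator s N j)) → Descends s N) ∧
    (∀ (k : ℕ) (s : Fin k → List (Fin k × Bool)) (A : Type) [Group A] [LinearOrder A]
      (χ : FreeGroup (Fin k) →* A), Triangular s χ → ∀ (N : Subgroup (FreeGroup (Fin k)))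
      [N.Normal], N ≤ (χ.comp (hom s)).ker → Descends s N) ∧
    (∀ (N : Subgroup (FreeGroup (Fin 2))) [N.Normal], N ≤ (height.comp (hom stall)).ker →
      Descends stall N) := by
  have h1 : ∀ (k : ℕ) (s : Fin k → List (Fin k × Bool)) (N : Subgroup (FreeGroup (Fin k)))
      [N.Normal], Function.Injective (toPP fun j => val (relator s N j)) →
      (Asph fun j => val (relator s N j)) → Descends s N := by
    intro k s N _ hinj hasp n a g ha hg hdep
    exact descend s N hinj hasp n a g ha hg hdep
  have h2 : ∀ (k : ℕ) (s : Fin k → List (Fin k × Bool)) (A : Type) [Group A] [LinearOrder A]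
      (χ : FreeGroup (Fin k) →* A), Triangular s χ → ∀ (N : Subgroup (FreeGroup (Fin k)))
      [N.Normal], N ≤ (χ.comp (hom s)).ker → Descends s N := by
    intro k s A _ _ χ ht N _ hN
    obtain ⟨ρ, hρ1, hρ2⟩ := exists_rho s N χ hN
    have hf := freeSides_of_triangular s N χ ht ρ hρ1 hρ2
    exact h1 k s N (Pool.Agent.X201.KW.inj_of_freeSides ρ hf)
      (Pool.Agent.X201.KW.asph_of_freeSides ρ hf)
  exact ⟨h1, h2, fun N _ hN => h2 2 stall _ height triangular_stall N hN⟩

end Pool.Agent.Results.MP_e9d015_al.DescentModuloCommutators
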