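import Pool.Agent.X201.KW.Met3

/-!
# Stallings' conjecture `B_n(p)` in metabelian quotients

Let `F` be a free group of finite rank and `S` a subgroup inducing an isomorphism on `H_1( ; Z/p)`,
and let `a` be a product of `F`-conjugates of `g_1, ..., g_n`, all in `S`.

(1) Let `N` be a normal subgroup of `S` such that `a` and the `g_i` are central modulo `N` and
`S/(N⟨a, g_1, ..., g_n⟩)` is residually a finite `p`-group.  Then `a` is a product of `S`-conjugates of
`g_1, ..., g_n` modulo `[N,N]`.  For `N = S'` the elements are arbitrary, and the condition is that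
`S/(S'⟨a, g_1, ..., g_n⟩)` has no torsion prime to `p`.
(2) Let `θ` be a homomorphism from `S` to a metabelian group `Γ` with the abelian normal subgroup
`A`, `Γ/A` abelian.  If the index of `A⟨θ(a), θ(g_1), ..., θ(g_n)⟩` is a power of `p`, then `θ(a)` is a
product of `Γ`-conjugates of `θ(g_1), ..., θ(g_n)`.
-/

set_option autoImplicit false

open Monoid
open scoped TensorProduct commutatorElement
open Pool.Agent.X201.KW (ResMod)

namespace Pool.Agent.Results.MP_e9d015_al.MetabelianQuotients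

theorem conj_prod {Q : Type} [Group Q] : ∀ (m : ℕ) (y : Q) (v : Fin m → Q),
    (List.ofFn fun i => y * v i * y⁻¹).prod = y * (List.ofFn v).prod * y⁻¹ := by
  intro m y
  induction m with
  | zero =>
    intro v
    simp
  | succ m ih =>
    intro v
    rw [List.ofFn_succ, List.prod_cons, ih, List.ofFn_succ, List.prod_cons]
    group

/-- the system over `Γ` and the relation in its group -/
theorem system (n k p : ℕ) (hp : p.Prime) (S : Subgroup (FreeGroup (Fin k)))
    (hS : Function.Bijective (LinearMap.rTensor (ZMod p)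
      (AddMonoidHom.toIntLinearMap (MonoidHom.toAdditive (Abelianization.map S.subtype)))))
    (a : S) (g : Fin n → S)
    (hdep : ∃ c : Fin n → FreeGroup (Fin k),
      (a : FreeGroup (Fin k)) =
        (List.ofFn (fun i => c i * (g i : FreeGroup (Fin k)) * (c i)⁻¹)).prod)
    (Q : Type) [Group Q] (θ : S →* Q) :
    ∃ w : Fin k → Coprod Q (FreeGroup (Fin k)),
      IsCoprime (Matrix.of fun i j : Fin k =>
        Multiplicative.toAdd (Pool.Agent.TH63.KQ.eta Q k i (w j))).det (p : ℤ) ∧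
      ∃ h : Fin (n + 1) → (Coprod Q (FreeGroup (Fin k)) ⧸ Subgroup.normalClosure (Set.range w)),
        (List.ofFn fun i => h i * QuotientGroup.mk' (Subgroup.normalClosure (Set.range w))
          (Coprod.inl ((Fin.cons (θ a)⁻¹ fun i => θ (g i) : Fin (n + 1) → Q) i)) *
            (h i)⁻¹).prod = 1 := by
  obtain ⟨s, hs, hcop⟩ := Pool.Agent.TH63.KQ.exists_basis S hp hS
  let w : Fin k → Coprod Q (FreeGroup (Fin k)) := fun j =>
    (Coprod.inl (θ (s j)))⁻¹ * Coprod.inr (s j : FreeGroup (Fin k))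
  have hw : ∀ i j, Multiplicative.toAdd (Pool.Agent.TH63.KQ.eta Q k i (w j)) =
      Multiplicative.toAdd (Pool.Agent.TH63.KQ.expo k i (s j : FreeGroup (Fin k))) := by
    intro i j
    have h1 : (Pool.Agent.TH63.KQ.eta Q k i).comp Coprod.inr = Pool.Agent.TH63.KQ.expo k i := by
      refine FreeGroup.ext_hom _ _ fun l => ?_
      simp [Pool.Agent.TH63.KQ.eta, Pool.Agent.TH63.KQ.expo]
    have h2 : Pool.Agent.TH63.KQ.eta Q k i (Coprod.inl (θ (s j))) = 1 := by
      simp [Pool.Agent.TH63.KQ.eta]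
    show Multiplicative.toAdd (Pool.Agent.TH63.KQ.eta Q k i ((Coprod.inl (θ (s j)))⁻¹ *
      Coprod.inr (s j : FreeGroup (Fin k)))) = _
    rw [map_mul, map_inv, h2, inv_one, one_mul, ← h1]
    rfl
  have hdet : IsCoprime (Matrix.of fun i j : Fin k =>
      Multiplicative.toAdd (Pool.Agent.TH63.KQ.eta Q k i (w j))).det (p : ℤ) := by
    have h1 : (Matrix.of fun i j : Fin k =>
        Multiplicative.toAdd (Pool.Agent.TH63.KQ.eta Q k i (w j))) = Matrix.of fun i j : Fin k =>
        Multiplicative.toAdd (Pool.Agent.TH63.KQ.expo k i (s j : FreeGroup (Fin k))) := by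
      ext i j
      exact hw i j
    rw [h1]
    exact hcop
  let mk := QuotientGroup.mk' (Subgroup.normalClosure (Set.range w))
  have hmk : (mk.comp Coprod.inl).comp θ = (mk.comp Coprod.inr).comp S.subtype := by
    apply hs
    intro j
    show mk (Coprod.inl (θ (s j))) = mk (Coprod.inr (s j : FreeGroup (Fin k)))
    refine QuotientGroup.eq.2 ?_
    exact Subgroup.subset_normalClosure ⟨j, rfl⟩
  have hmk' : ∀ x : S, mk (Coprod.inl (θ x)) = mk (Coprod.inr (x : FreeGroup (Fin k))) :=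
    fun x => DFunLike.congr_fun hmk x
  obtain ⟨c, hc⟩ := hdep
  refine ⟨w, hdet, Fin.cons 1 fun i => mk (Coprod.inr (c i)), ?_⟩
  rw [List.ofFn_succ, List.prod_cons]
  simp only [Fin.cons_zero, Fin.cons_succ]
  have h1 : (List.ofFn fun i : Fin n => mk (Coprod.inr (c i)) * mk (Coprod.inl (θ (g i))) *
      (mk (Coprod.inr (c i)))⁻¹).prod = mk (Coprod.inl (θ a)) := by
    rw [hmk' a, hc, map_list_prod, map_list_prod, List.map_ofFn, List.map_ofFn]
    congr 2
    funext i
    simp [hmk']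
  show 1 * mk (Coprod.inl (θ a)⁻¹) * 1⁻¹ * (List.ofFn fun i : Fin n => mk (Coprod.inr (c i)) *
    mk (Coprod.inl (θ (g i))) * (mk (Coprod.inr (c i)))⁻¹).prod = 1
  rw [h1]
  simp

/-- from the tuple `a⁻¹, g_1, ..., g_n` to a product of conjugates of the `g_i` -/
theorem unpack {Q : Type} [Group Q] (n : ℕ) (a : Q) (g : Fin n → Q) (x : Fin (n + 1) → Q) :
    (List.ofFn fun i => x i * (Fin.cons a⁻¹ g : Fin (n + 1) → Q) i * (x i)⁻¹).prod =
      x 0 * (a⁻¹ * (List.ofFn fun i => (x 0)⁻¹ * x i.succ * g i * ((x 0)⁻¹ * x i.succ)⁻¹).prod) *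
        (x 0)⁻¹ := by
  rw [List.ofFn_succ, List.prod_cons]
  simp only [Fin.cons_zero, Fin.cons_succ]
  have h4 : (fun i : Fin n => (x 0)⁻¹ * x i.succ * g i * ((x 0)⁻¹ * x i.succ)⁻¹) =
      fun i => (x 0)⁻¹ * (x i.succ * g i * (x i.succ)⁻¹) * ((x 0)⁻¹)⁻¹ := by
    funext i
    group
  rw [h4, conj_prod]
  group

theorem closure_cons {Q : Type} [Group Q] (n : ℕ) (a : Q) (g : Fin n → Q) :
    Subgroup.closure (Set.range (Fin.cons a⁻¹ g : Fin (n + 1) → Q)) =
      Subgroup.closure ({a} ∪ Set.range g) := by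
  refine le_antisymm ((Subgroup.closure_le _).2 ?_) ((Subgroup.closure_le _).2 ?_)
  · rintro _ ⟨i, rfl⟩
    refine Fin.cases ?_ (fun i => ?_) i
    · exact Subgroup.inv_mem _ (Subgroup.subset_closure (Or.inl rfl))
    · exact Subgroup.subset_closure (Or.inr ⟨i, rfl⟩)
  · rintro b (hb | ⟨i, rfl⟩)
    · have h : a⁻¹ ∈ Subgroup.closure (Set.range (Fin.cons a⁻¹ g : Fin (n + 1) → Q)) :=
        Subgroup.subset_closure ⟨0, rfl⟩
      have hb' : b = a := hb
      rw [hb']
      exact (Subgroup.inv_mem_iff _).1 h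
    · exact Subgroup.subset_closure ⟨i.succ, rfl⟩

/-- Let `S` be a subgroup of the free group `F` of rank `k` such that `H_1(S; Z/p) → H_1(F; Z/p)` is
an isomorphism, and `a, g_1, ..., g_n` in `S` such that `a` is a product of `F`-conjugates of
`g_1, ..., g_n`.
(1) Let `N` be a normal subgroup of `S` such that `[y,a]` and all `[y,g_i]` lie in `N` for all `y` in
`S`.  Assume that `N⟨a, g_1, ..., g_n⟩` is an intersection of kernels of homomorphisms from `S` to
finite `p`-groups.  Then `a⁻¹ ∏ c_i g_i c_i⁻¹` lies in `[N,N]` for some `c_i` in `S`.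
(2) The case `N = S'`: let `a` and `g_1, ..., g_n` be arbitrary.  Assume that `S'⟨a, g_1, ..., g_n⟩` is
an intersection of kernels of homomorphisms from `S` to finite `p`-groups.  Then
`a⁻¹ ∏ c_i g_i c_i⁻¹` lies in `S''` for some `c_i` in `S`.
(3) Let `θ` be a homomorphism from `S` to a group `Γ` with an abelian normal subgroup `A` such that
`θ(a)` and all `θ(g_i)` are central modulo `A`.  If the index of `A⟨θ(a), θ(g_1), ..., θ(g_n)⟩` in `Γ` is
a power of `p`, then `θ(a)` is a product of `Γ`-conjugates of `θ(g_1), ..., θ(g_n)`. -/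
theorem result (n k p : ℕ) (hp : p.Prime) (S : Subgroup (FreeGroup (Fin k)))
    (hS : Function.Bijective (LinearMap.rTensor (ZMod p)
      (AddMonoidHom.toIntLinearMap (MonoidHom.toAdditive (Abelianization.map S.subtype)))))
    (a : S) (g : Fin n → S)
    (hdep : ∃ c : Fin n → FreeGroup (Fin k),
      (a : FreeGroup (Fin k)) =
        (List.ofFn (fun i => c i * (g i : FreeGroup (Fin k)) * (c i)⁻¹)).prod) :
    (∀ N : Subgroup S, ∀ _ : N.Normal, (∀ y : S, ⁅y, a⁆ ∈ N) → (∀ (y : S) (i : Fin n), ⁅y, g i⁆ ∈ N) →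
      ResMod p (N ⊔ Subgroup.closure ({a} ∪ Set.range g)) →
      ∃ c : Fin n → S, a⁻¹ * (List.ofFn (fun i => c i * g i * (c i)⁻¹)).prod ∈ ⁅N, N⁆) ∧
    (ResMod p (commutator S ⊔ Subgroup.closure ({a} ∪ Set.range g)) →
      ∃ c : Fin n → S, a⁻¹ * (List.ofFn (fun i => c i * g i * (c i)⁻¹)).prod ∈
        derivedSeries S 2) ∧
    (∀ (Γ : Type) [Group Γ] (θ : S →* Γ) (A : Subgroup Γ) [A.Normal],
      (∀ x ∈ A, ∀ y ∈ A, x * y = y * x) → (∀ y : Γ, ⁅y, θ a⁆ ∈ A) →
      (∀ (y : Γ) (i : Fin n), ⁅y, θ (g i)⁆ ∈ A) →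
      (∃ m : ℕ, (A ⊔ Subgroup.closure ({θ a} ∪ Set.range fun i => θ (g i))).index = p ^ m) →
      ∃ c : Fin n → Γ, θ a = (List.ofFn (fun i => c i * θ (g i) * (c i)⁻¹)).prod) := by
  have h0 : ∀ N : Subgroup S, ∀ _ : N.Normal, (∀ y : S, ⁅y, a⁆ ∈ N) →
      (∀ (y : S) (i : Fin n), ⁅y, g i⁆ ∈ N) → ResMod p (N ⊔ Subgroup.closure ({a} ∪ Set.range g)) →
      ∃ c : Fin n → S, a⁻¹ * (List.ofFn (fun i => c i * g i * (c i)⁻¹)).prod ∈ ⁅N, N⁆ := by
    intro N hN ha hg' hres
    obtain ⟨w, hcop, hg⟩ := system n k p hp S hS a g hdep S (MonoidHom.id S)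
    have hres' : ResMod p (N ⊔
        Subgroup.closure (Set.range (Fin.cons a⁻¹ g : Fin (n + 1) → S))) := by
      rw [closure_cons]
      exact hres
    obtain ⟨x, hx⟩ := Pool.Agent.X201.KW.met_free_mod hp N k w hcop (n + 1)
      (Fin.cons a⁻¹ g : Fin (n + 1) → S) (by
        intro y i
        refine Fin.cases ?_ (fun i => ?_) i
        · show ⁅y, a⁻¹⁆ ∈ N
          have h1 := N.inv_mem (ha y)
          have h2 := hN.conj_mem _ h1 a⁻¹
          have e : a⁻¹ * (⁅y, a⁆)⁻¹ * (a⁻¹)⁻¹ = ⁅y, a⁻¹⁆ := by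
            rw [commutatorElement_def, commutatorElement_def]
            group
          rw [e] at h2
          exact h2
        · exact hg' y i) hres' hg
    rw [unpack] at hx
    refine ⟨fun i => (x 0)⁻¹ * x i.succ, ?_⟩
    have h1 := (inferInstance : (⁅N, N⁆ : Subgroup S).Normal).conj_mem _ hx (x 0)⁻¹
    have e : ∀ z : S, (x 0)⁻¹ * (x 0 * z * (x 0)⁻¹) * ((x 0)⁻¹)⁻¹ = z := fun z => by group
    rw [e] at h1
    exact h1
  refine ⟨h0, fun hres => h0 (commutator S) inferInstance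
    (fun y => Subgroup.commutator_mem_commutator (Subgroup.mem_top y) (Subgroup.mem_top a))
    (fun y i => Subgroup.commutator_mem_commutator (Subgroup.mem_top y) (Subgroup.mem_top (g i)))
    hres, ?_⟩
  · intro Γ _ θ A _ hA ha hg' hidx
    obtain ⟨w, hcop, hg⟩ := system n k p hp S hS a g hdep Γ θ
    have hAc : IsMulCommutative A :=
      isMulCommutative_iff.2 fun a b => Subtype.ext (hA a a.2 b b.2)
    obtain ⟨x, hx⟩ := Pool.Agent.X201.KW.met_power hp A k w hcop (n + 1)
      (Fin.cons (θ a)⁻¹ fun i => θ (g i) : Fin (n + 1) → Γ) (by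
        intro y i
        refine Fin.cases ?_ (fun i => ?_) i
        · show ⁅y, (θ a)⁻¹⁆ ∈ A
          have h1 := A.inv_mem (ha y)
          have h2 := (inferInstance : A.Normal).conj_mem _ h1 (θ a)⁻¹
          have e : (θ a)⁻¹ * (⁅y, θ a⁆)⁻¹ * ((θ a)⁻¹)⁻¹ = ⁅y, (θ a)⁻¹⁆ := by
            rw [commutatorElement_def, commutatorElement_def]
            group
          rw [e] at h2
          exact h2
        · exact hg' y i) (by
        rw [closure_cons]
        exact hidx) hg
    rw [unpack] at hx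
    refine ⟨fun i => (x 0)⁻¹ * x i.succ, ?_⟩
    rw [mul_inv_eq_one] at hx
    have h2 := mul_eq_left.1 hx
    exact inv_mul_eq_one.1 h2

end Pool.Agent.Results.MP_e9d015_al.MetabelianQuotients
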