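import Pool.Agent.X201.KW.Key
import Pool.Agent.X201.KW.Sol

/-!
# Stallings' conjecture `B_n(p)` modulo `[N,N]`

Let `F` be a free group of finite rank and `S` a subgroup inducing an isomorphism on `H_1( ; Z/p)`.
Let `N` be a normal subgroup of `S` such that `S/N` is residually a finite `p`-group.  If `a` in `N`
is a product of `F`-conjugates of elements `g_1, ..., g_n` of `N`, then `a` is, modulo `[N,N]`, a
product of `S`-conjugates of `g_1, ..., g_n`.  In particular, if `a` and the `g_i` lie in the term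
`S^(j)` of the derived series, this holds modulo `S^(j+1)`.  More generally, it holds after every
homomorphism `Θ` from `S` to a wreath product `V ≀ Q` (`V` abelian, `Q` residually a finite
`p`-group, `Θ` onto `Q`), if `a` and the `g_i` are mapped to the base group.
-/

set_option autoImplicit false

open Monoid
open scoped TensorProduct
open Pool.Agent.X201.KW (Wr ResQ)

namespace Pool.Agent.Results.MP_e9d015_al.RelationModules

theorem conj_prod {Q : Type} [Group Q] : ∀ (m : ℕ) (y : Q) (v : Fin m → Q),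
    (List.ofFn fun i => y * v i * y⁻¹).prod = y * (List.ofFn v).prod * y⁻¹ := by
  intro m y
  induction m with
  | zero =>
    intro v
    simp
  | succ m ih =>
    intro v
    rw [List.ofFn_succ, List.prod_cons, ih, List.ofFn_succ, List.prod_cons]
    group

theorem general (n k p : ℕ) (hp : p.Prime) (S : Subgroup (FreeGroup (Fin k)))
    (hS : Function.Bijective (LinearMap.rTensor (ZMod p)
      (AddMonoidHom.toIntLinearMap (MonoidHom.toAdditive (Abelianization.map S.subtype)))))
    (a : S) (g : Fin n → S)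
    (hdep : ∃ c : Fin n → FreeGroup (Fin k),
      (a : FreeGroup (Fin k)) =
        (List.ofFn (fun i => c i * (g i : FreeGroup (Fin k)) * (c i)⁻¹)).prod)
    (V Q : Type) [AddCommGroup V] [Group Q] (hQ : ResQ p Q) (Θ : S →* Wr V Q)
    (hΘ : ∀ x : Q, ∃ y : S, (Θ y).a = x) (ha : (Θ a).a = 1) (hg : ∀ i, (Θ (g i)).a = 1) :
    ∃ c : Fin n → S, Θ a = Θ (List.ofFn (fun i => c i * g i * (c i)⁻¹)).prod := by
  obtain ⟨s, hs, hcop⟩ := Pool.Agent.TH63.KQ.exists_basis S hp hS
  let w : Fin k → Coprod S (FreeGroup (Fin k)) := fun j =>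
    (Coprod.inl (s j))⁻¹ * Coprod.inr (s j : FreeGroup (Fin k))
  have hw : ∀ i j, Multiplicative.toAdd (Pool.Agent.TH63.KQ.eta S k i (w j)) =
      Multiplicative.toAdd (Pool.Agent.TH63.KQ.expo k i (s j : FreeGroup (Fin k))) := by
    intro i j
    have h1 : (Pool.Agent.TH63.KQ.eta S k i).comp Coprod.inr = Pool.Agent.TH63.KQ.expo k i := by
      refine FreeGroup.ext_hom _ _ fun l => ?_
      simp [Pool.Agent.TH63.KQ.eta, Pool.Agent.TH63.KQ.expo]
    have h2 : Pool.Agent.TH63.KQ.eta S k i (Coprod.inl (s j)) = 1 := by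
      simp [Pool.Agent.TH63.KQ.eta]
    show Multiplicative.toAdd (Pool.Agent.TH63.KQ.eta S k i ((Coprod.inl (s j))⁻¹ *
      Coprod.inr (s j : FreeGroup (Fin k)))) = _
    rw [map_mul, map_inv, h2, inv_one, one_mul, ← h1]
    rfl
  have hdet : IsCoprime (Matrix.of fun i j : Fin k =>
      Multiplicative.toAdd (Pool.Agent.TH63.KQ.eta S k i (w j))).det (p : ℤ) := by
    have h1 : (Matrix.of fun i j : Fin k =>
        Multiplicative.toAdd (Pool.Agent.TH63.KQ.eta S k i (w j))) = Matrix.of fun i j : Fin k =>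
        Multiplicative.toAdd (Pool.Agent.TH63.KQ.expo k i (s j : FreeGroup (Fin k))) := by
      ext i j
      exact hw i j
    rw [h1]
    exact hcop
  let mk := QuotientGroup.mk' (Subgroup.normalClosure (Set.range w))
  have hmk : mk.comp Coprod.inl = (mk.comp Coprod.inr).comp S.subtype := by
    apply hs
    intro j
    show mk (Coprod.inl (s j)) = mk (Coprod.inr (s j : FreeGroup (Fin k)))
    refine QuotientGroup.eq.2 ?_
    exact Subgroup.subset_normalClosure ⟨j, rfl⟩
  have hmk' : ∀ x : S, mk (Coprod.inl x) = mk (Coprod.inr (x : FreeGroup (Fin k))) :=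
    fun x => DFunLike.congr_fun hmk x
  obtain ⟨c, hc⟩ := hdep
  have hmain := Pool.Agent.X201.KW.key hp hQ Θ hΘ k w hdet (n + 1)
    (Fin.cons a⁻¹ g) (fun i => by
      refine Fin.cases ?_ (fun i => ?_) i
      · show (Θ a⁻¹).a = 1
        rw [map_inv, Pool.Agent.X201.KW.Wr.inv_a, ha, inv_one]
      · exact hg i) ⟨Fin.cons 1 fun i => mk (Coprod.inr (c i)), ?_⟩
  · obtain ⟨x, hx⟩ := hmain
    rw [List.ofFn_succ, List.prod_cons] at hx
    simp only [Fin.cons_zero, Fin.cons_succ] at hx
    refine ⟨fun i => (x 0)⁻¹ * x i.succ, ?_⟩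
    have h4 : (fun i : Fin n => (x 0)⁻¹ * x i.succ * g i * ((x 0)⁻¹ * x i.succ)⁻¹) =
        fun i => (x 0)⁻¹ * (x i.succ * g i * (x i.succ)⁻¹) * ((x 0)⁻¹)⁻¹ := by
      funext i
      group
    rw [h4, conj_prod, map_mul, map_mul]
    rw [map_mul, map_mul, map_mul] at hx
    have h2 := eq_inv_of_mul_eq_one_right hx
    rw [h2]
    simp only [map_inv]
    group
  · rw [List.ofFn_succ, List.prod_cons]
    simp only [Fin.cons_zero, Fin.cons_succ]
    have h1 : (List.ofFn fun i : Fin n => mk (Coprod.inr (c i)) * mk (Coprod.inl (g i)) *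
        (mk (Coprod.inr (c i)))⁻¹).prod = mk (Coprod.inl a) := by
      rw [hmk' a, hc, map_list_prod, map_list_prod, List.map_ofFn, List.map_ofFn]
      congr 2
      funext i
      simp [hmk']
    show 1 * mk (Coprod.inl a⁻¹) * 1⁻¹ * (List.ofFn fun i : Fin n => mk (Coprod.inr (c i)) *
      mk (Coprod.inl (g i)) * (mk (Coprod.inr (c i)))⁻¹).prod = 1
    rw [h1]
    simp

/-- Let `S` be a subgroup of the free group `F` of rank `k` such that `H_1(S; Z/p) → H_1(F; Z/p)` is
an isomorphism, and `a, g_1, ..., g_n` in `S` such that `a` is a product of `F`-conjugates of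
`g_1, ..., g_n`.
(1) If `a, g_1, ..., g_n` lie in the term `S^(j)` of the derived series of `S`, then
`a⁻¹ ∏ c_i g_i c_i⁻¹` lies in `S^(j+1)` for some `c_i` in `S`.
(2) Let `N` be a normal subgroup of `S` such that `S/N` is residually a finite `p`-group, and let
`a, g_1, ..., g_n` lie in `N`.  Then `a⁻¹ ∏ c_i g_i c_i⁻¹` lies in `[N,N]` for some `c_i` in `S`.
(3) Let `Θ` be a homomorphism from `S` to the restricted wreath product `V ≀ Q` of an abelian group
`V` and a group `Q` which is residually a finite `p`-group, with second coordinate onto `Q`, and let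
`Θ a, Θ g_1, ..., Θ g_n` lie in the base group.  Then `Θ a = Θ (∏ c_i g_i c_i⁻¹)` for some `c_i` in
`S`. -/
theorem result (n k p : ℕ) (hp : p.Prime) (S : Subgroup (FreeGroup (Fin k)))
    (hS : Function.Bijective (LinearMap.rTensor (ZMod p)
      (AddMonoidHom.toIntLinearMap (MonoidHom.toAdditive (Abelianization.map S.subtype)))))
    (a : S) (g : Fin n → S)
    (hdep : ∃ c : Fin n → FreeGroup (Fin k),
      (a : FreeGroup (Fin k)) =
        (List.ofFn (fun i => c i * (g i : FreeGroup (Fin k)) * (c i)⁻¹)).prod) :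
    (∀ j : ℕ, a ∈ derivedSeries S j → (∀ i, g i ∈ derivedSeries S j) →
      ∃ c : Fin n → S,
        a⁻¹ * (List.ofFn (fun i => c i * g i * (c i)⁻¹)).prod ∈ derivedSeries S (j + 1)) ∧
    (∀ N : Subgroup S, ∀ _ : N.Normal, ResQ p (S ⧸ N) → a ∈ N → (∀ i, g i ∈ N) →
      ∃ c : Fin n → S, a⁻¹ * (List.ofFn (fun i => c i * g i * (c i)⁻¹)).prod ∈ ⁅N, N⁆) ∧
    (∀ (V Q : Type) [AddCommGroup V] [Group Q], ResQ p Q → ∀ Θ : S →* Wr V Q,
      (∀ x : Q, ∃ y : S, (Θ y).a = x) → (Θ a).a = 1 → (∀ i, (Θ (g i)).a = 1) →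
      ∃ c : Fin n → S, Θ a = Θ (List.ofFn (fun i => c i * g i * (c i)⁻¹)).prod) := by
  have h0 : ∀ N : Subgroup S, ∀ _ : N.Normal, ResQ p (S ⧸ N) → a ∈ N → (∀ i, g i ∈ N) →
      ∃ c : Fin n → S, a⁻¹ * (List.ofFn (fun i => c i * g i * (c i)⁻¹)).prod ∈ ⁅N, N⁆ := by
    intro N _ hN ha hg
    obtain ⟨Θ, h1, h2⟩ := Pool.Agent.X201.KW.magnus S N
    obtain ⟨c, hc⟩ := general n k p hp S hS a g hdep _ (S ⧸ N) hN Θ
      (fun x => by
        obtain ⟨y, rfl⟩ := QuotientGroup.mk_surjective x
        exact ⟨y, h1 y⟩)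
      (by rw [h1]; exact (QuotientGroup.eq_one_iff _).2 ha)
      (fun i => by rw [h1]; exact (QuotientGroup.eq_one_iff _).2 (hg i))
    refine ⟨c, h2 _ ?_⟩
    rw [map_mul, map_inv, ← hc, inv_mul_cancel]
  exact ⟨fun j ha hg => h0 (derivedSeries S j) inferInstance
      (Pool.Agent.X201.KW.resQ_derived hp S j) ha hg, h0,
    fun V Q _ _ hQ Θ hΘ ha hg => general n k p hp S hS a g hdep V Q hQ Θ hΘ ha hg⟩

end Pool.Agent.Results.MP_e9d015_al.RelationModules
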